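import Mathlib
import Pool.Agent.K6.H22.Devron
import Pool.Agent.K6.H22.Devron2

/-!
The Devron property of the three-dimensional pentagram map of Khesin and Soloviev: if the faces of
a closed polygon with `2 n` vertices in real projective space pass alternately through two points,
then after `n - 3` steps the vertices lie alternately in two planes.

Idea of the proof. The relation between the vertices `i-2, ..., i+2` splits into a part `D_o` with
the odd shifts and a part `D_e` with the even shifts, the map is `a ↦ D_o a = - D_e a`, and for the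
next polygon `D_o' D_e = D_e' D_o`. The condition on the faces says that for each parity a fixed
linear combination of the relations vanishes for `D_o` and for `D_e` separately. Counting dimensions,
there is for each parity a linear form `f ≠ 0` and functions `h_1, ..., h_(n-4)` with
`D_o (f a) = D_e h_1`, `D_o h_1 = D_e h_2`, ..., `D_o h_(n-4) = 0`; applying the map `n - 3` times
gives `f = 0` on the vertices of one parity of the last polygon. That `f ≠ 0` follows because `D_o`
and `D_e` have no common kernel as long as the map can be applied twice.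
-/

set_option autoImplicit false

namespace Pool.Agent.Results.MP_d88dfe_an.Devron

open Module Pool.Agent.K6.H22.Devron
open scoped LinearAlgebra.Projectivization

/-- the points of the three-dimensional real projective space `RP³` -/
abbrev Pt : Type := ℙ ℝ (Fin 4 → ℝ)

/-- the subspace of `ℝ⁴` spanned by two points; it is (the cone over) a line if its dimension
is `2` -/
noncomputable def join2 (X Y : Pt) : Submodule ℝ (Fin 4 → ℝ) := X.submodule ⊔ Y.submodule

/-- the subspace of `ℝ⁴` spanned by three points; it is (the cone over) a plane if its dimension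
is `3` -/
noncomputable def join3 (X Y Z : Pt) : Submodule ℝ (Fin 4 → ℝ) := X.submodule ⊔ Y.submodule ⊔ Z.submodule

/-- `F(A)` is defined and equal to `B`: for every `i` the points `A (i-1)`, `A (i+1)` determine a
line, the points `A (i-2)`, `A i`, `A (i+2)` determine a plane, and they meet exactly in the
point `B i`. -/
def IsPentagram (A B : ℤ → Pt) : Prop :=
  ∀ i : ℤ, finrank ℝ (join2 (A (i - 1)) (A (i + 1))) = 2 ∧
    finrank ℝ (join3 (A (i - 2)) (A i) (A (i + 2))) = 3 ∧
    join2 (A (i - 1)) (A (i + 1)) ⊓ join3 (A (i - 2)) (A i) (A (i + 2)) = (B i).submodule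

theorem join2_eq (X Y : Pt) : join2 X Y = Submodule.span ℝ (Set.range ![X.rep, Y.rep]) := by
  rw [join2, X.submodule_eq, Y.submodule_eq, ← Submodule.span_union]
  congr 1
  ext v
  simp only [Matrix.range_cons, Matrix.range_empty, Set.union_empty]

theorem join3_eq (X Y Z : Pt) :
    join3 X Y Z = Submodule.span ℝ (Set.range ![X.rep, Y.rep, Z.rep]) := by
  rw [join3, X.submodule_eq, Y.submodule_eq, Z.submodule_eq, ← Submodule.span_union,
    ← Submodule.span_union]
  congr 1
  ext v
  simp only [Matrix.range_cons, Matrix.range_empty, Set.union_empty, Set.mem_union,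
    Set.mem_singleton_iff, or_assoc]

theorem ind_join2 {X Y : Pt} (h : finrank ℝ (join2 X Y) = 2) (x y : ℝ)
    (hxy : x • X.rep + y • Y.rep = 0) : x = 0 ∧ y = 0 := by
  rw [join2_eq] at h
  have hli : LinearIndependent ℝ ![X.rep, Y.rep] := by
    rw [linearIndependent_iff_card_eq_finrank_span, Fintype.card_fin]
    exact h.symm
  rw [LinearIndependent.pair_iff] at hli
  exact hli x y hxy

theorem ind_join3 {X Y Z : Pt} (h : finrank ℝ (join3 X Y Z) = 3) (x y z : ℝ)
    (hxy : x • X.rep + y • Y.rep + z • Z.rep = 0) : x = 0 ∧ y = 0 ∧ z = 0 := by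
  rw [join3_eq] at h
  have hli : LinearIndependent ℝ ![X.rep, Y.rep, Z.rep] := by
    rw [linearIndependent_iff_card_eq_finrank_span, Fintype.card_fin]
    exact h.symm
  rw [Fintype.linearIndependent_iff] at hli
  have := hli ![x, y, z] (by
    simp only [Fin.sum_univ_three, Matrix.cons_val_zero, Matrix.cons_val_one, Matrix.cons_val]
    exact hxy)
  exact ⟨this 0, this 1, this 2⟩

theorem mem_join2 {X Y : Pt} {v : Fin 4 → ℝ} :
    v ∈ join2 X Y ↔ ∃ x y : ℝ, v = x • X.rep + y • Y.rep := by
  rw [join2, X.submodule_eq, Y.submodule_eq, Submodule.mem_sup]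
  constructor
  · rintro ⟨p, hp, q, hq, rfl⟩
    obtain ⟨x, rfl⟩ := Submodule.mem_span_singleton.mp hp
    obtain ⟨y, rfl⟩ := Submodule.mem_span_singleton.mp hq
    exact ⟨x, y, rfl⟩
  · rintro ⟨x, y, rfl⟩
    exact ⟨_, Submodule.smul_mem _ _ (Submodule.mem_span_singleton_self _), _,
      Submodule.smul_mem _ _ (Submodule.mem_span_singleton_self _), rfl⟩

theorem mem_join3 {X Y Z : Pt} {v : Fin 4 → ℝ} :
    v ∈ join3 X Y Z ↔ ∃ x y z : ℝ, v = x • X.rep + y • Y.rep + z • Z.rep := by
  have h0 : join3 X Y Z = join2 X Y ⊔ Z.submodule := rfl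
  rw [h0, Z.submodule_eq, Submodule.mem_sup]
  constructor
  · rintro ⟨p, hp, q, hq, rfl⟩
    obtain ⟨x, y, rfl⟩ := mem_join2.mp hp
    obtain ⟨z, rfl⟩ := Submodule.mem_span_singleton.mp hq
    exact ⟨x, y, z, rfl⟩
  · rintro ⟨x, y, z, rfl⟩
    exact ⟨_, mem_join2.mpr ⟨x, y, rfl⟩, _,
      Submodule.smul_mem _ _ (Submodule.mem_span_singleton_self _), rfl⟩

/-- A step of the map gives the data used in the linear algebra. -/
theorem step {A B : ℤ → Pt} (h : IsPentagram A B) :
    Nonempty (Stp ℝ (fun i => (A i).rep) (fun i => (B i).rep)) := by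
  have hmem : ∀ i, (B i).rep ∈ join2 (A (i - 1)) (A (i + 1)) ∧
      (B i).rep ∈ join3 (A (i - 2)) (A i) (A (i + 2)) := by
    intro i
    have h1 : (B i).rep ∈ (B i).submodule := by
      rw [Projectivization.submodule_eq]
      exact Submodule.mem_span_singleton_self _
    rw [← (h i).2.2] at h1
    exact h1
  have h1 : ∀ i, ∃ β δ : ℝ, (B i).rep = β • (A (i - 1)).rep + δ • (A (i + 1)).rep :=
    fun i => mem_join2.mp (hmem i).1
  have h2 : ∀ i, ∃ α γ ε : ℝ, (B i).rep =
      -(α • (A (i - 2)).rep + γ • (A i).rep + ε • (A (i + 2)).rep) := by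
    intro i
    obtain ⟨x, y, z, hxyz⟩ := mem_join3.mp (hmem i).2
    exact ⟨-x, -y, -z, by rw [hxyz]; module⟩
  choose β δ hD using h1
  choose α γ ε hE using h2
  refine ⟨{ β := β, δ := δ, α := α, γ := γ, ε := ε, hD := hD, hE := hE,
            hb := fun i => (B i).rep_nonzero,
            ind2 := fun i x y hxy => ind_join2 (h i).1 x y hxy,
            ind3 := fun i x y z hxyz => ind_join3 (h i).2.1 x y z hxyz,
            uniq := ?_ }⟩
  intro i x y u v w hrel
  have hm1 : x • (A (i - 1)).rep + y • (A (i + 1)).rep ∈ join2 (A (i - 1)) (A (i + 1)) :=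
    mem_join2.mpr ⟨x, y, rfl⟩
  have hm2 : x • (A (i - 1)).rep + y • (A (i + 1)).rep ∈
      join3 (A (i - 2)) (A i) (A (i + 2)) := by
    refine mem_join3.mpr ⟨-u, -v, -w, ?_⟩
    rw [eq_neg_of_add_eq_zero_left hrel]
    module
  have hm : x • (A (i - 1)).rep + y • (A (i + 1)).rep ∈ (B i).submodule := by
    rw [← (h i).2.2]
    exact ⟨hm1, hm2⟩
  rw [Projectivization.submodule_eq] at hm
  obtain ⟨t, ht⟩ := Submodule.mem_span_singleton.mp hm
  have e1 : (x - t * β i) • (A (i - 1)).rep + (y - t * δ i) • (A (i + 1)).rep = 0 := by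
    have : (x - t * β i) • (A (i - 1)).rep + (y - t * δ i) • (A (i + 1)).rep =
        (x • (A (i - 1)).rep + y • (A (i + 1)).rep) -
        t • (β i • (A (i - 1)).rep + δ i • (A (i + 1)).rep) := by module
    rw [this, ← hD i, ht, sub_self]
  have e2 : (u - t * α i) • (A (i - 2)).rep + (v - t * γ i) • (A i).rep +
      (w - t * ε i) • (A (i + 2)).rep = 0 := by
    have : (u - t * α i) • (A (i - 2)).rep + (v - t * γ i) • (A i).rep +
      (w - t * ε i) • (A (i + 2)).rep =
        (x • (A (i - 1)).rep + y • (A (i + 1)).rep +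
          (u • (A (i - 2)).rep + v • (A i).rep + w • (A (i + 2)).rep)) -
        (x • (A (i - 1)).rep + y • (A (i + 1)).rep) +
        t • (-(α i • (A (i - 2)).rep + γ i • (A i).rep + ε i • (A (i + 2)).rep)) := by module
    rw [this, hrel, ← hE i, ht]
    module
  obtain ⟨k1, k2⟩ := ind_join2 (h i).1 _ _ e1
  obtain ⟨k3, k4, k5⟩ := ind_join3 (h i).2.1 _ _ _ e2
  exact ⟨t, sub_eq_zero.mp k1, sub_eq_zero.mp k2, sub_eq_zero.mp k3, sub_eq_zero.mp k4,
    sub_eq_zero.mp k5⟩

theorem per_mul {n : ℕ} {A : ℤ → Pt} (hper : ∀ i, A (i + 2 * n) = A i) (i q : ℤ) :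
    A (i + 2 * n * q) = A i := by
  have := Function.Periodic.int_mul (f := A) (c := 2 * (n : ℤ)) hper q i
  rw [← this]
  congr 1
  push_cast
  ring

/-- the vertices of one parity of the last polygon lie in a plane -/
theorem main (n : ℕ) (hn : 4 ≤ n) (G : ℕ → ℤ → Pt) (hper : ∀ i, G 0 (i + 2 * n) = G 0 i)
    (hG : ∀ k, k < n - 3 → IsPentagram (G k) (G (k + 1))) (P Q : Pt)
    (hP : ∀ i : ℤ, Even i → P.submodule ≤ join3 (G 0 (i - 1)) (G 0 i) (G 0 (i + 1)))
    (hQ : ∀ i : ℤ, Odd i → Q.submodule ≤ join3 (G 0 (i - 1)) (G 0 i) (G 0 (i + 1))) (p : ℤ) :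
    ∃ H : Submodule ℝ (Fin 4 → ℝ), finrank ℝ H = 3 ∧
      ∀ i : ℤ, Even (i - p) → (G (n - 3) i).submodule ≤ H := by
  classical
  obtain ⟨m, rfl⟩ : ∃ m, n = m + 4 := ⟨n - 4, by omega⟩
  have hm3 : m + 4 - 3 = m + 1 := by omega
  rw [hm3] at hG ⊢
  have hS : ∀ k, k < m + 1 → Nonempty (Stp ℝ (fun i => (G k i).rep) (fun i => (G (k + 1) i).rep)) :=
    fun k hk => step (hG k hk)
  obtain ⟨S⟩ : Nonempty (∀ k, k < m + 1 →
      Stp ℝ (fun i => (G k i).rep) (fun i => (G (k + 1) i).rep)) :=
    ⟨fun k hk => Classical.choice (hS k hk)⟩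
  set a : ℤ → (Fin 4 → ℝ) := fun i => (G 0 i).rep with ha
  set b : ℤ → (Fin 4 → ℝ) := fun i => (G 1 i).rep with hb
  have haper : ∀ i, a (i + 2 * ((m + 4 : ℕ) : ℤ)) = a i := by
    intro i
    simp only [ha]
    rw [hper]
  have hper1 : ∀ i, G 1 (i + 2 * ((m + 4 : ℕ) : ℤ)) = G 1 i := by
    intro i
    apply Projectivization.submodule_injective
    have e1 := (hG 0 (by omega) (i + 2 * ((m + 4 : ℕ) : ℤ))).2.2
    have e2 := (hG 0 (by omega) i).2.2
    rw [show i + 2 * ((m + 4 : ℕ) : ℤ) - 1 = (i - 1) + 2 * ((m + 4 : ℕ) : ℤ) by ring,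
      show i + 2 * ((m + 4 : ℕ) : ℤ) + 1 = (i + 1) + 2 * ((m + 4 : ℕ) : ℤ) by ring,
      show i + 2 * ((m + 4 : ℕ) : ℤ) - 2 = (i - 2) + 2 * ((m + 4 : ℕ) : ℤ) by ring,
      show i + 2 * ((m + 4 : ℕ) : ℤ) + 2 = (i + 2) + 2 * ((m + 4 : ℕ) : ℤ) by ring,
      hper, hper, hper, hper, hper, e2] at e1
    exact e1.symm
  have hbper : ∀ i, b (i + 2 * ((m + 4 : ℕ) : ℤ)) = b i := by
    intro i
    simp only [hb]
    rw [hper1]
  -- the rows of the face relations
  set PQ : ℤ → (Fin 4 → ℝ) := fun i => if Even i then P.rep else Q.rep with hPQ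
  have hPQne : ∀ i, PQ i ≠ 0 := by
    intro i
    simp only [hPQ]
    split_ifs
    · exact P.rep_nonzero
    · exact Q.rep_nonzero
  have hrow0 : ∀ i : ℤ, ∃ x y z : ℝ, PQ i = x • a (i - 1) + y • a i + z • a (i + 1) := by
    intro i
    by_cases hi : Even i
    · have e1 := hP i hi
      have e2 : P.rep ∈ P.submodule := by
        rw [Projectivization.submodule_eq]; exact Submodule.mem_span_singleton_self _
      have e3 := mem_join3.mp (e1 e2)
      simp only [hPQ]
      rw [if_pos hi]
      exact e3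
    · have e1 := hQ i (Int.not_even_iff_odd.mp hi)
      have e2 : Q.rep ∈ Q.submodule := by
        rw [Projectivization.submodule_eq]; exact Submodule.mem_span_singleton_self _
      have e3 := mem_join3.mp (e1 e2)
      simp only [hPQ]
      rw [if_neg hi]
      exact e3
  choose x0 y0 z0 hrow0 using hrow0
  set N : ℤ := 2 * ((m + 4 : ℕ) : ℤ) with hN
  have hNpos : 0 < N := by rw [hN]; positivity
  set x : ℤ → ℝ := fun i => x0 (i % N) with hx
  set y : ℤ → ℝ := fun i => y0 (i % N) with hy
  set z : ℤ → ℝ := fun i => z0 (i % N) with hz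
  have hred : ∀ i t : ℤ, a (i % N + t) = a (i + t) := by
    intro i t
    simp only [ha]
    have e1 : i + t = (i % N + t) + 2 * ((m + 4 : ℕ) : ℤ) * (i / N) := by
      have := Int.emod_add_mul_ediv i N
      rw [hN] at this ⊢
      linear_combination -this
    rw [e1, per_mul hper]
  have hPQred : ∀ i : ℤ, PQ (i % N) = PQ i := by
    intro i
    simp only [hPQ]
    have : Even (i % N) ↔ Even i := by
      have e1 := Int.emod_add_mul_ediv i N
      have e2 : i = i % N + 2 * (((m + 4 : ℕ) : ℤ) * (i / N)) := by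
        rw [hN] at e1 ⊢
        linear_combination -e1
      constructor
      · intro h
        rw [e2]
        exact h.add (even_two_mul _)
      · intro h
        have e3 : i % N = i - 2 * (((m + 4 : ℕ) : ℤ) * (i / N)) := by linear_combination -e2
        rw [e3]
        exact h.sub (even_two_mul _)
    simp only [this]
  have hrow : ∀ i : ℤ, PQ i = x i • a (i - 1) + y i • a i + z i • a (i + 1) := by
    intro i
    have e1 := hrow0 (i % N)
    rw [hPQred] at e1
    have e2 := hred i (-1)
    have e3 := hred i 0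
    have e4 := hred i 1
    rw [add_zero, add_zero] at e3
    rw [← sub_eq_add_neg, ← sub_eq_add_neg] at e2
    rw [e2, e3, e4] at e1
    exact e1
  have hPQ2 : ∀ i : ℤ, PQ (i + 1) = PQ (i - 1) := by
    intro i
    simp only [hPQ]
    have : Even (i + 1) ↔ Even (i - 1) := by
      rw [Int.even_add_one, Int.even_sub_one]
    simp only [this]
  have hw : ∀ i : ℤ, ∃ t : ℝ, - y (i - 1) = t * (S 0 (by omega)).β i ∧
      y (i + 1) = t * (S 0 (by omega)).δ i ∧ - x (i - 1) = t * (S 0 (by omega)).α i ∧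
      x (i + 1) - z (i - 1) = t * (S 0 (by omega)).γ i ∧ z (i + 1) = t * (S 0 (by omega)).ε i := by
    intro i
    refine (S 0 (by omega)).uniq i _ _ _ _ _ ?_
    have e1 := hrow (i + 1)
    have e2 := hrow (i - 1)
    rw [hPQ2, e2, show i - 1 - 1 = i - 2 by ring, show i - 1 + 1 = i by ring,
      show i + 1 - 1 = i by ring, show i + 1 + 1 = i + 2 by ring] at e1
    have e3 := sub_eq_zero.mpr e1
    rw [← neg_eq_zero, ← e3]
    simp only [ha]
    module
  choose w hw using hw
  have hne : ∀ d : ℤ, ∃ j : ℤ, w (2 * j + d) ≠ 0 := by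
    intro d
    by_contra hcon
    push Not at hcon
    have f0 := hw (2 * 0 + d)
    have f1 := hw (2 * 1 + d)
    rw [hcon 0] at f0
    rw [hcon 1] at f1
    simp only [zero_mul] at f0 f1
    rw [show (2 : ℤ) * 0 + d - 1 = d - 1 by ring, show (2 : ℤ) * 0 + d + 1 = d + 1 by ring] at f0
    rw [show (2 : ℤ) * 1 + d - 1 = d + 1 by ring, show (2 : ℤ) * 1 + d + 1 = d + 3 by ring] at f1
    apply hPQne (d + 1)
    rw [hrow (d + 1), f0.2.1, f0.2.2.2.2, neg_eq_zero.mp f1.2.2.1]
    simp
  have hxper : ∀ i, x (i + 2 * ((m + 4 : ℕ) : ℤ)) = x i := by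
    intro i
    simp only [hx]
    rw [← hN, Int.add_emod_right]
  have hyper : ∀ i, y (i + 2 * ((m + 4 : ℕ) : ℤ)) = y i := by
    intro i
    simp only [hy]
    rw [← hN, Int.add_emod_right]
  have hzper : ∀ i, z (i + 2 * ((m + 4 : ℕ) : ℤ)) = z i := by
    intro i
    simp only [hz]
    rw [← hN, Int.add_emod_right]
  have : NeZero (m + 4) := ⟨by omega⟩
  obtain ⟨f, h, hch, hend, h0, hnt⟩ := exists_chain (n := m + 4) (m := m) (S 0 (by omega)) rfl
    (by simp) haper hbper x y z w hxper hyper hzper (fun i => (hw i).1.symm)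
    (fun i => (hw i).2.1.symm) (fun i => (hw i).2.2.1.symm) (fun i => (hw i).2.2.2.1.symm)
    (fun i => (hw i).2.2.2.2.symm) hne (p - (m + 1))
  have hf : f ≠ 0 := by
    intro hf0
    apply hnt
    refine ⟨hf0, fun r hr => ?_⟩
    refine rigid (m + 1) (fun k i => (G k i).rep) S h (fun _ r hr => hch r hr) hend ?_ r hr
    rw [h0, hf0]
    funext i
    simp
  refine ⟨LinearMap.ker f, ?_, ?_⟩
  · have := Module.Dual.finrank_ker_add_one_of_ne_zero hf
    rw [Module.finrank_fin_fun] at this
    omega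
  · intro i hi
    have e1 := transport (m + 1) (fun k i => (G k i).rep) S f (p - (m + 1)) h
      (fun _ r hr => hch r hr) hend h0 i (by
        have : i - (p - ((m : ℤ) + 1)) - ((m + 1 : ℕ) : ℤ) = i - p := by push_cast; ring
        rw [this]
        exact hi)
    rw [Projectivization.submodule_eq, Submodule.span_singleton_le_iff_mem]
    exact e1

/-- **The Devron property of the three-dimensional pentagram map** (the answer to Q1 is yes). Let
`n ≥ 4`, let `G 0` be a `2 n`-periodic polygon whose faces pass alternately through the points `P`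
and `Q`, and suppose that the iterates `G 1 = F(G 0)`, ..., `G (n-3) = F^(n-3) (G 0)` are defined.
Then the odd-indexed vertices of `G (n-3)` lie in one plane, and the even-indexed vertices of
`G (n-3)` lie in one plane. -/
theorem result (n : ℕ) (hn : 4 ≤ n) (G : ℕ → ℤ → Pt) (hper : ∀ i, G 0 (i + 2 * n) = G 0 i)
    (hG : ∀ k, k < n - 3 → IsPentagram (G k) (G (k + 1))) (P Q : Pt)
    (hP : ∀ i : ℤ, Even i → P.submodule ≤ join3 (G 0 (i - 1)) (G 0 i) (G 0 (i + 1)))
    (hQ : ∀ i : ℤ, Odd i → Q.submodule ≤ join3 (G 0 (i - 1)) (G 0 i) (G 0 (i + 1))) :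
    (∃ H : Submodule ℝ (Fin 4 → ℝ), finrank ℝ H = 3 ∧
      ∀ i : ℤ, Odd i → (G (n - 3) i).submodule ≤ H) ∧
    (∃ H : Submodule ℝ (Fin 4 → ℝ), finrank ℝ H = 3 ∧
      ∀ i : ℤ, Even i → (G (n - 3) i).submodule ≤ H) := by
  constructor
  · obtain ⟨H, h1, h2⟩ := main n hn G hper hG P Q hP hQ 1
    exact ⟨H, h1, fun i hi => h2 i (by rw [Int.even_sub_one, Int.not_even_iff_odd]; exact hi)⟩
  · obtain ⟨H, h1, h2⟩ := main n hn G hper hG P Q hP hQ 0
    exact ⟨H, h1, fun i hi => h2 i (by rw [sub_zero]; exact hi)⟩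

end Pool.Agent.Results.MP_d88dfe_an.Devron
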